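import Pool.Agent.PFD.StmtsD3

/-!
# Squad PFD, block D3, row NLW (helper53)
-/

open scoped BigOperators

noncomputable section

namespace Pool.Agent.PFD.H53

theorem pow_aux {A : Type} [CommRing A] (I : Ideal A) : ∀ (n : ℕ) (c : A),
    (∀ y : Fin n → A, (∀ i, y i ∈ I) → c * ∏ i, y i = 0) → ∀ z ∈ I ^ n, c * z = 0 := by
  intro n
  induction n with
  | zero =>
    intro c hc z _
    have h1 : c = 0 := by
      have h2 := hc (fun i => i.elim0) (fun i => i.elim0)
      simpa using h2
    rw [h1, zero_mul]
  | succ n ih =>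
    intro c hc z hz
    rw [pow_succ] at hz
    induction hz using Submodule.mul_induction_on' with
    | mem_mul_mem a ha b hb =>
      have h1 := ih (c * b) (fun y hy => by
        have h2 := hc (Fin.cons b y) (fun i => by
          refine Fin.cases ?_ (fun j => ?_) i
          · rw [Fin.cons_zero]
            exact hb
          · rw [Fin.cons_succ]
            exact hy j)
        rw [Fin.prod_univ_succ, Fin.cons_zero] at h2
        simp only [Fin.cons_succ] at h2
        rw [mul_assoc]
        exact h2) a ha
      rw [mul_comm a b, ← mul_assoc]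
      exact h1
    | add x _ y _ hx hy =>
      rw [mul_add, hx, hy, add_zero]

theorem nlw : D3.NlwStmt := by
  intro R R1 W E _ _ _ _ _ _ act ψ A eps N hA heps hN
  classical
  have hfin : Fintype W := Fintype.ofFinite W
  have hker : ∀ x : MonoidAlgebra R1 W,
      x ∈ RingHom.ker (MonoidAlgebra.mapRingHom W (eps : R1 →+* R)) ↔
        ∀ w, eps (x.coeff w) = 0 := by
    intro x
    rw [RingHom.mem_ker]
    constructor
    · intro h w
      have h1 := congrArg (fun z : MonoidAlgebra R W => z.coeff w) h
      simpa [MonoidAlgebra.coeff_mapRingHom] using h1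
    · intro h
      apply MonoidAlgebra.ext
      ext w
      rw [MonoidAlgebra.coeff_mapRingHom]
      simpa using h w
  have hsum : ∀ x : MonoidAlgebra R1 W, x = ∑ w, MonoidAlgebra.single w (x.coeff w) := by
    intro x
    conv_lhs => rw [← MonoidAlgebra.sum_coeff_single x]
    rw [Finsupp.sum_fintype]
    intro w
    simp
  refine ⟨RingHom.ker (MonoidAlgebra.mapRingHom W (eps : R1 →+* R)), ?_, ?_, hker⟩
  · have h1 : RingHom.ker (MonoidAlgebra.mapRingHom W (eps : R1 →+* R)) ≤
        Ideal.map (MonoidAlgebra.singleOneRingHom : R1 →+* MonoidAlgebra R1 W)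
          (RingHom.ker (eps : R1 →+* R)) := by
      intro x hx
      rw [hker] at hx
      rw [hsum x]
      refine Ideal.sum_mem _ fun w _ => ?_
      have h2 : (MonoidAlgebra.single w (x.coeff w) : MonoidAlgebra R1 W) =
          MonoidAlgebra.single w 1 * MonoidAlgebra.singleOneRingHom (x.coeff w) := by
        simp [MonoidAlgebra.singleOneRingHom]
      rw [h2]
      refine Ideal.mul_mem_left _ _ (Ideal.mem_map_of_mem _ ?_)
      rw [RingHom.mem_ker]
      exact hx w
    have h3 : (RingHom.ker (eps : R1 →+* R)) ^ N = ⊥ := by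
      rw [eq_bot_iff]
      intro z hz
      rw [Submodule.mem_bot]
      have h4 := pow_aux _ N 1 (fun y hy => by
        rw [one_mul]
        exact hN y fun i => (RingHom.mem_ker).1 (hy i)) z hz
      rwa [one_mul] at h4
    rw [eq_bot_iff]
    calc (RingHom.ker (MonoidAlgebra.mapRingHom W (eps : R1 →+* R))) ^ N ≤
        (Ideal.map (MonoidAlgebra.singleOneRingHom : R1 →+* MonoidAlgebra R1 W)
          (RingHom.ker (eps : R1 →+* R))) ^ N := Ideal.pow_right_mono h1 N
      _ = ⊥ := by rw [← Ideal.map_pow, h3, Ideal.map_bot]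
      _ ≤ ⊥ := le_rfl
  · intro e y hy
    rw [hker] at hy
    rw [hsum y, map_sum]
    refine Ideal.sum_mem _ fun w _ => ?_
    rw [hA, hker]
    intro u
    rw [MonoidAlgebra.coeff_single, Finsupp.single_apply]
    by_cases h : ψ e w = u
    · rw [if_pos h, heps, hy]
    · rw [if_neg h, map_zero]

end Pool.Agent.PFD.H53
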